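import Pool.Agent.Helper24.MinHadwiger.Final
import Pool.Agent.Helper32.HadFinal

/-!
# MP_d4104f_co, Q1: `m(A_n)` has order of magnitude `n`; in fact `m(A_n) = n + O(1)`
-/

namespace Pool.Agent.Results.MP_d4104f_co.AlternatingOrder

open Pool.Helper24.MinHadwiger Asymptotics Filter

/-- `m(A_n)` has order of magnitude `n`: `m(A_n) ≤ n + 2` for `n ≥ 4`, `m(A_n) > n / 200` for
`n ≥ 800`, and `m(A_n) ≥ n - 66` for `n ≥ 2 ^ 101`; in particular `log m(A_n) = o(n log n)`. -/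
theorem result :
    (∀ n : ℕ, 4 ≤ n → minHadwiger (alternatingGroup (Fin n)) ≤ n + 2) ∧
    (∀ n : ℕ, 800 ≤ n → n < 200 * minHadwiger (alternatingGroup (Fin n))) ∧
    (∀ n : ℕ, 2 ^ 101 ≤ n → n ≤ minHadwiger (alternatingGroup (Fin n)) + 66) ∧
    ((fun n : ℕ => (minHadwiger (alternatingGroup (Fin n)) : ℝ)) =Θ[atTop]
      (fun n : ℕ => (n : ℝ))) ∧
    (fun n : ℕ => Real.log (minHadwiger (alternatingGroup (Fin n)))) =o[atTop]
      (fun n : ℕ => (n : ℝ) * Real.log n) :=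
  ⟨fun _ hn => minHadwiger_alternating_le hn,
    fun _ hn => Pool.Agent.Helper32.HadFinal.lower hn,
    fun _ hn => le_minHadwiger_alternating hn,
    isTheta_minHadwiger, isLittleO_log_minHadwiger⟩

end Pool.Agent.Results.MP_d4104f_co.AlternatingOrder
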